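import Pool.Agent.H.MP_e0518f_lc.B

set_option autoImplicit false

namespace Pool.Agent.Results.MP_e0518f_lc.Yes

open Set Function MeasureTheory Pool.Agent.H.MP_e0518f_lc

/-- The circle `ℝ / ℤ`. -/
abbrev S := AddCircle (1 : ℝ)

/-- `F` is a lift of `f`. -/
def Lifts (F : CircleDeg1Lift) (f : C(S, S)) : Prop := ∀ x : ℝ, f (x : S) = ((F x : ℝ) : S)

/-- Orientation preserving homeomorphisms of the circle. -/
def H : Set C(S, S) := {f | Bijective f ∧ ∃ F : CircleDeg1Lift, Bijective F ∧ Lifts F f}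

/-- The elements of `H` with irrational rotation number. -/
def I : Set H := {f | ∃ F : CircleDeg1Lift, Lifts F f.1 ∧ Irrational F.translationNumber}

/-- Haar null in the sense of Christensen, with two-sided translates. -/
def HaarNull {X : Type} [TopologicalSpace X] (G : Set C(X, X)) (A : Set G) : Prop :=
  ∃ B : Set G, A ⊆ B ∧ @MeasurableSet G (borel G) B ∧ ∃ μ : @Measure G (borel G),
    IsProbabilityMeasure μ ∧ ∀ g h : G, μ {x : G | ∃ b ∈ B, x.1 = g.1.comp (b.1.comp h.1)} = 0

theorem eq_iff {x y : ℝ} : (x : S) = (y : S) ↔ ∃ p : ℤ, x = y + p := by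
  rw [eq_comm, QuotientAddGroup.eq, AddSubgroup.mem_zmultiples_iff]
  exact exists_congr fun p => by rw [zsmul_one]; constructor <;> intro <;> linarith

theorem bij {F : CircleDeg1Lift} {f : C(S, S)} (hF : Bijective F) (h : Lifts F f) : f ∈ H := by
  refine ⟨⟨fun x y e => ?_, fun y => ?_⟩, F, hF, h⟩
  · induction x using QuotientAddGroup.induction_on
    induction y using QuotientAddGroup.induction_on
    rw [h, h, eq_iff] at e
    obtain ⟨p, e⟩ := e
    exact eq_iff.2 ⟨p, hF.1 (e.trans (F.map_add_int _ _).symm)⟩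
  · induction y using QuotientAddGroup.induction_on with | H y => ?_
    obtain ⟨x, rfl⟩ := hF.2 y
    exact ⟨_, h x⟩

theorem exists_lift (F : CircleDeg1Lift) (hF : Continuous F) : ∃ f, Lifts F f := by
  have p : Periodic (fun x => ((F x : ℝ) : S)) 1 := fun x => eq_iff.2 ⟨1, by simp⟩
  exact ⟨⟨p.lift, (QuotientAddGroup.isQuotientMap_mk _).continuous_iff.2
    (AddCircle.continuous_mk' 1 |>.comp hF)⟩, fun x => rfl⟩

theorem closed (q : ℕ) : IsClosed {f : C(S, S) | ∃ x, f^[q] x = x} := by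
  have c : Continuous fun z : C(S, S) × S => z.1^[q] z.2 := by
    induction q with
    | zero => exact continuous_snd
    | succ q ih => simp only [iterate_succ_apply']; fun_prop
  have := isClosedMap_fst_of_compactSpace _ (isClosed_eq c continuous_snd)
  simpa [image] using this

theorem result : HaarNull H I := by
  let _ := borel H
  have : BorelSpace H := ⟨rfl⟩
  obtain ⟨Φ, h1, h2, h3⟩ := null
  obtain ⟨φ, hφ⟩ := exists_lift Φ h1
  let c : C((ℝ × ℝ) × S, S) := ⟨fun w => φ (w.2 - (w.1.2 : ℝ)) + (w.1.1 : ℝ), by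
    have := AddCircle.continuous_mk' (1 : ℝ)
    exact (φ.continuous.comp (continuous_snd.sub (this.comp (by fun_prop)))).add
      (this.comp (by fun_prop))⟩
  have l : ∀ (z : ℝ × ℝ) (x : ℝ), c.curry z (x : S) = ((Φ (x - z.2) + z.1 : ℝ) : S) :=
    fun z x => by rw [AddCircle.coe_add, ← hφ]; rfl
  have m : ∀ z, c.curry z ∈ H := fun z => by
    let F : CircleDeg1Lift := ⟨⟨fun x => Φ (x - z.2) + z.1, fun x y h =>
      add_le_add_left (Φ.mono (sub_le_sub_right h _)) _⟩, fun x => by
        simp only [add_sub_right_comm, Φ.map_add_one]; ring⟩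
    exact bij (F := F) ⟨fun x y e => sub_left_injective (h2.injective (add_right_cancel e)),
      F.continuous_iff_surjective.1 (show Continuous fun x => Φ (x - z.2) + z.1 by fun_prop)⟩ (l z)
  have rm : Measurable fun z => (⟨c.curry z, m z⟩ : H) :=
    (c.curry.continuous.subtype_mk _).measurable
  have mB : ∀ {e : H → C(S, S)}, Continuous e →
      MeasurableSet {f : H | ∀ q, 0 < q → ∀ x, (e f)^[q] x ≠ x} := fun {e} he => by
    have : {f : H | ∀ q, 0 < q → ∀ x, (e f)^[q] x ≠ x} =
        ⋂ q, ⋂ _ : 0 < q, (e ⁻¹' {f : C(S, S) | ∃ x, f^[q] x = x})ᶜ := by ext; simp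
    rw [this]
    exact .iInter fun q => .iInter fun _ => ((closed q).preimage he).measurableSet.compl
  refine ⟨{f | ∀ q, 0 < q → ∀ x, f.1^[q] x ≠ x}, ?_, mB continuous_subtype_val,
    (ν.prod ν).map fun z => ⟨c.curry z, m z⟩, Measure.isProbabilityMeasure_map rm.aemeasurable,
    fun g h => ?_⟩
  · rintro f ⟨F, hF, hi⟩ q hq x e
    induction x using QuotientAddGroup.induction_on with | H x => ?_
    have : f.1^[q] x = ((F^[q] x : ℝ) : S) := (Semiconj.iterate_right (fun y => (hF y).symm) q x).symm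
    obtain ⟨p, hp⟩ := eq_iff.1 (this.symm.trans e)
    rw [F.translationNumber_of_map_pow_eq_add_int (by rw [F.coe_pow]; exact hp) hq] at hi
    exact hi ⟨p / q, by simp⟩
  obtain ⟨-, G, G1, G2⟩ := g.2
  obtain ⟨-, L, L1, L2⟩ := h.2
  obtain ⟨U, hU⟩ := CircleDeg1Lift.isUnit_iff_bijective.2 (show Bijective (G * L) from G1.comp L1)
  have cK : Continuous (↑U⁻¹ : CircleDeg1Lift) := (CircleDeg1Lift.continuous_iff_surjective _).2
    (CircleDeg1Lift.isUnit_iff_bijective.1 U⁻¹.isUnit).2
  obtain ⟨κ, hκ⟩ := exists_lift _ cK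
  have e1 : ∀ x, g.1 (h.1 (κ x)) = x := fun x => by
    induction x using QuotientAddGroup.induction_on with | H x => ?_
    rw [hκ, L2, G2, ← G.mul_apply, ← hU, CircleDeg1Lift.units_apply_inv_apply]
  refine measure_mono_null (t := {f | ∀ q, 0 < q → ∀ x, (f.1.comp κ)^[q] x ≠ x}) ?_ ?_
  · rintro f ⟨b, hb, e⟩ q hq x e'
    obtain ⟨x, rfl⟩ := g.2.1.2 x
    have : Semiconj g.1 b.1 (f.1.comp κ) := fun y => by
      simp only [e, ContinuousMap.comp_apply]
      rw [g.2.1.1 (e1 (g.1 y))]
    exact hb q hq x (g.2.1.1 ((this.iterate_right q x).trans e'))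
  rw [Measure.map_apply rm (mB (by fun_prop))]
  refine measure_mono_null ?_ (h3 _ cK)
  intro z hz q hq y p e
  refine hz q hq y ?_
  have : Semiconj (fun x : ℝ => (x : S)) (fun x => Φ ((↑U⁻¹ : CircleDeg1Lift) x - z.2) + z.1)
    ((c.curry z).comp κ) := fun x => by rw [ContinuousMap.comp_apply, hκ, l]
  exact (this.iterate_right q y).symm.trans (eq_iff.2 ⟨p, e⟩)

end Pool.Agent.Results.MP_e0518f_lc.Yes
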